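import Pool.Agent.W957.CH.Stm2
import Pool.Agent.W120.CH.PR12

set_option autoImplicit false

/-! CH-R1: long clean intervals have many attachments. -/

namespace Pool.Agent.W899.CH.R1

open Finset Pool.Agent.W957.CH
open Pool.Agent.W120.CH (mem_sg sg_length sg_head sg_last sg_nodup sg_chain earP EarP not_img
  chain_app QQ)

variable {V : Type} [DecidableEq V]

lemma mem_pcs {X : Cx V} {n : ℕ} {c : ℕ → V} {I : Finset ℕ} {x : V} : x ∈ pcs X n c I ↔
    x ∈ X.A ∧ ((∃ i ∈ I, x = c i) ∨ ∃ K, Comp X n c K ∧ x ∈ K ∧ ∃ i ∈ I, At X c K i) := by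
  classical
  unfold pcs
  exact Finset.mem_filter

/-- The cycle through two ears. -/
lemma mk_cyc {X : Cx V} {n : ℕ} {c : ℕ → V} (hg : Good X n c) {s t w : ℕ} {Q1 Q2 : List V}
    (hst : s < t) (htn : t < n) (hw : w < n) (hwo : w < s ∨ t < w)
    (e1 : Ear X n c t w Q1) (e2 : Ear X n c w s Q2) (hd : ∀ x ∈ Q1, x ∉ Q2) :
    Cyc X.G (sg c s t ++ Q1 ++ ([c w] ++ Q2)) := by
  have hcr := hg.cr
  have p1 := earP e1
  have p2 := earP e2
  have ne1 : Q1 ≠ [] := by
    intro h
    have := p1.pos
    rw [h] at this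
    simp at this
  have ne2 : Q2 ≠ [] := by
    intro h
    have := p2.pos
    rw [h] at this
    simp at this
  have nes : sg c s t ≠ [] := by
    intro h
    have := congrArg List.length h
    rw [sg_length] at this
    simp at this
    omega
  have hin1 : ∀ {i : ℕ} {x : V}, i < n → c i = x → x ∉ Q1 := fun hi h hx =>
    not_img (p1.out _ hx).2 hi h
  have hin2 : ∀ {i : ℕ} {x : V}, i < n → c i = x → x ∉ Q2 := fun hi h hx =>
    not_img (p2.out _ hx).2 hi h
  refine ⟨?_, ⟨?_, ?_⟩, ?_⟩
  · simp only [List.length_append, sg_length, List.length_singleton]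
    have := p1.pos
    omega
  · rw [List.nodup_append, List.nodup_append, List.nodup_append]
    refine ⟨⟨sg_nodup hcr htn, p1.nodup, ?_⟩, ⟨List.nodup_singleton _, p2.nodup, ?_⟩, ?_⟩
    · intro x hx y hy hxy
      obtain ⟨i, _, h2, h4⟩ := mem_sg.mp hx
      exact hin1 (by omega) h4 (hxy ▸ hy)
    · intro x hx y hy hxy
      rw [List.mem_singleton] at hx
      exact hin2 hw hx.symm (hxy ▸ hy)
    · intro x hx y hy hxy
      rcases List.mem_append.mp hx with hx | hx
      · obtain ⟨i, h1, h2, h4⟩ := mem_sg.mp hx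
        rcases List.mem_append.mp hy with hy | hy
        · rw [List.mem_singleton] at hy
          have := hcr.inj i w (by omega) hw (by rw [h4, hxy, hy])
          omega
        · exact hin2 (by omega) h4 (hxy ▸ hy)
      · rcases List.mem_append.mp hy with hy | hy
        · rw [List.mem_singleton] at hy
          exact hin1 hw hy.symm (hxy ▸ hx)
        · exact hd x hx (hxy ▸ hy)
  · have ch : (sg c s t ++ Q1 ++ ([c w] ++ Q2)).IsChain (QQ X.G n c) := by
      refine chain_app (chain_app (sg_chain hcr htn) p1.chain ?_)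
        (chain_app (List.isChain_singleton _) p2.chain ?_) ?_
      · intro x hx y hy
        rw [sg_last c (by omega)] at hx
        cases hx
        exact p1.fst y hy
      · intro x hx y hy
        simp only [List.getLast?_singleton, Option.mem_def, Option.some.injEq] at hx
        subst hx
        exact p2.fst y hy
      · intro x hx y hy
        rw [List.getLast?_append_of_ne_nil _ ne1] at hx
        simp only [List.cons_append, List.head?_cons, Option.mem_def, Option.some.injEq] at hy
        subst hy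
        exact p1.lst x hx
    exact ch.imp (fun _ _ h => h.1)
  · intro a b ha hb
    rw [List.append_assoc, List.head?_append_of_ne_nil _ nes, sg_head c (by omega)] at ha
    cases ha
    rw [List.getLast?_append_of_ne_nil _ (by simp), List.getLast?_append_of_ne_nil _ ne2] at hb
    exact (p2.lst b hb).1

theorem t_R1 (h1 : S_PC0) (h2 : S_U2) (h3 : S_4A) (h4 : S_PCS) : S_R1 := by
  intro V _ X n c τ σ a b hS hcl h8 hlong
  have hok := hS.ok
  have hg := hS.good
  have hcr := hg.cr
  obtain ⟨pc1, pc2, pc3, pc4⟩ := h1 V X n c hok hg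
  by_contra hcard
  rw [not_lt] at hcard
  have hbb : 8 ≤ bb X.m τ := by unfold bb; omega
  have hD : bb X.m τ * 2 ≤ bb X.m τ * (σ + τ + 2) := Nat.mul_le_mul_left _ (by omega)
  have hab : a < b := by omega
  have hbn : b < n := (hcl b hab.le le_rfl).1
  have hI : ∀ i ∈ Icc a b, Cl X n c i := by
    intro i hi
    rw [Finset.mem_Icc] at hi
    exact hcl i hi.1 hi.2
  obtain ⟨q1, q2, -, -⟩ := h4 V X n c (Icc a b) hok hg hI
  set P := pcs X n c (Icc a b) with hP
  have hfree : Free X.G n c a b := fun i hi1 hi2 => (hcl i hi1 hi2).2.2.1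
  -- positions
  set D := σ + τ + 2 with hDd
  have hx : ∀ t, t ≤ bb X.m τ → a + t * D ≤ b := by
    intro t ht
    have : t * D ≤ bb X.m τ * D := Nat.mul_le_mul_right _ ht
    omega
  have hdata : ∀ t, t ≤ bb X.m τ → ∃ K w, Comp X n c K ∧ At X c K (a + t * D) ∧ w < n ∧
      (w < a ∨ b < w) ∧ At X c K w := by
    intro t ht
    have hc := hcl (a + t * D) (by omega) (hx t ht)
    obtain ⟨K, hK1, hK2⟩ := pc3 _ hc
    obtain ⟨w, hw1, hw2, hw3⟩ := h2 V X n c a b K hok hg hK1 (hc.2.2.2 K hK1 hK2) hab.le hbn
      hfree h8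
    exact ⟨K, w, hK1, hK2, hw1, hw2, hw3⟩
  choose! K w hK using hdata
  have hwN : ∀ t ∈ Finset.range (bb X.m τ + 1), c (w t) ∈ nbr X.G X.A P := by
    intro t ht
    rw [Finset.mem_range] at ht
    obtain ⟨k1, k2, k3, k4, k5⟩ := hK t (by omega)
    rw [q2]
    refine ⟨w t, k3, ?_, rfl, Or.inr ⟨K t, k1, k5, a + t * D, ?_, k2⟩⟩
    · rw [Finset.mem_Icc]
      omega
    · rw [Finset.mem_Icc]
      exact ⟨by omega, hx t (by omega)⟩
  obtain ⟨t1, ht1, t2, ht2, hne, heq⟩ := Finset.exists_ne_map_eq_of_card_lt_of_maps_to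
    (s := Finset.range (bb X.m τ + 1)) (t := nbr X.G X.A P) (f := fun t => c (w t))
    (by rw [Finset.card_range]; omega) hwN
  -- order the two indices
  have key : ∀ s t, s < t → t ≤ bb X.m τ → c (w s) = c (w t) → False := by
    intro s t hst ht he
    obtain ⟨k1, k2, k3, k4, k5⟩ := hK s (by omega)
    obtain ⟨l1, l2, l3, l4, l5⟩ := hK t ht
    have hww : w s = w t := hcr.inj _ _ k3 l3 he
    have hmul : (s + 1) * D ≤ t * D := Nat.mul_le_mul_right _ hst
    have hmul2 : (s + 1) * D = s * D + D := by ring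
    have hxs := hx s (by omega)
    have hxt := hx t ht
    have hKK : K s ≠ K t := by
      intro h
      have := h3 V X n c τ σ (a + s * D) (a + t * D) (K s) hS (by omega) (by omega)
        (fun p hp1 hp2 => hcl p (by omega) (by omega)) k1 k2 (h ▸ l2)
      omega
    rw [← hww] at l5
    obtain ⟨Q1, e1, m1⟩ := pc4 (a + t * D) (w s) (K t) l1 l2 l5
    obtain ⟨Q2, e2, m2⟩ := pc4 (w s) (a + s * D) (K s) k1 k5 k2
    have hdis : ∀ x ∈ Q1, x ∉ Q2 := by
      intro x hx1 hx2
      exact hKK (pc2 (K s) (K t) x k1 l1 (m2 x hx2) (m1 x hx1))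
    have hcyc := mk_cyc hg (s := a + s * D) (t := a + t * D) (w := w s) (by omega) (by omega) k3
      (by omega) e1 e2 hdis
    have hPA : P ⊆ X.A := by
      intro x hx
      rw [hP, mem_pcs] at hx
      exact hx.1
    have hPi : ∀ i, a ≤ i → i ≤ b → c i ∈ P := by
      intro i hi1 hi2
      rw [hP, mem_pcs]
      exact ⟨hg.sub i (by omega), Or.inl ⟨i, Finset.mem_Icc.2 ⟨hi1, hi2⟩, rfl⟩⟩
    have hPK : ∀ L, Comp X n c L → ∀ i, a ≤ i → i ≤ b → At X c L i → ∀ x ∈ L, x ∈ P := by
      intro L hL i hi1 hi2 hA x hx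
      rw [hP, mem_pcs]
      exact ⟨hL.2.1 hx, Or.inr ⟨L, hL, hx, i, Finset.mem_Icc.2 ⟨hi1, hi2⟩, hA⟩⟩
    have hPne : P.Nonempty := ⟨c a, hPi a le_rfl hab.le⟩
    have hne2 : P ∪ nbr X.G X.A P ≠ X.A := by
      intro hU
      -- positions outside of the interval
      have hout : ∀ j ∈ (Finset.range n) \ (Icc a b), c j ∈ nbr X.G X.A P := by
        intro j hj
        rw [Finset.mem_sdiff, Finset.mem_range, Finset.mem_Icc] at hj
        have hjA := hg.sub j hj.1
        rw [← hU, Finset.mem_union] at hjA
        rcases hjA with hjP | hjN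
        · exfalso
          rw [hP, mem_pcs] at hjP
          rcases hjP.2 with ⟨i, hi, hci⟩ | ⟨L, hL, hjL, -⟩
          · rw [Finset.mem_Icc] at hi
            have := hcr.inj j i hj.1 (by omega) hci
            omega
          · have hd := hL.2.2.1
            rw [Finset.disjoint_left] at hd
            refine hd hjL ?_
            unfold img
            rw [Finset.mem_image]
            exact ⟨j, Finset.mem_range.2 hj.1, rfl⟩
        · exact hjN
      have hcc : ((Finset.range n) \ (Icc a b)).card ≤ (nbr X.G X.A P).card := by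
        refine Finset.card_le_card_of_injOn c hout ?_
        intro i hi j hj hij
        have hi' := Finset.mem_coe.1 hi
        have hj' := Finset.mem_coe.1 hj
        rw [Finset.mem_sdiff, Finset.mem_range] at hi' hj'
        exact hcr.inj i j hi'.1 hj'.1 hij
      have hc2 : n ≤ ((Finset.range n) \ (Icc a b)).card + (Icc a b).card := by
        have h5 := Finset.card_le_card_sdiff_add_card (s := Finset.range n) (t := Icc a b)
        rw [Finset.card_range] at h5
        exact h5
      rw [Nat.card_Icc] at hc2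
      have hbig := hS.big
      omega
    obtain ⟨-, r2⟩ := hok.reg P hPA hPne q1 hne2
    have r3 := r2 _ hcyc ?_
    · have r4 := hS.par.s _ (r3.trans hcard)
      simp only [List.length_append, sg_length, List.length_singleton] at r4
      omega
    · intro x hx
      rw [Finset.mem_union]
      rcases List.mem_append.mp hx with hx | hx
      · rcases List.mem_append.mp hx with hx | hx
        · obtain ⟨i, i1, i2, rfl⟩ := mem_sg.mp hx
          exact Or.inl (hPi i (by omega) (by omega))
        · exact Or.inl (hPK (K t) l1 (a + t * D) (by omega) hxt l2 x (m1 x hx))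
      · rcases List.mem_append.mp hx with hx | hx
        · rw [List.mem_singleton] at hx
          subst hx
          exact Or.inr (hwN s (Finset.mem_range.2 (by omega)))
        · exact Or.inl (hPK (K s) k1 (a + s * D) (by omega) hxs k2 x (m2 x hx))
  rw [Finset.mem_range] at ht1 ht2
  rcases lt_or_gt_of_ne hne with h | h
  · exact key t1 t2 h (by omega) heq
  · exact key t2 t1 h (by omega) heq.symm

end Pool.Agent.W899.CH.R1
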